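import Pool.Agent.H447R3.DegDefs

/-!
# Spreading out cycles over finitely generated fields: definitions
-/

open CategoryTheory AlgebraicGeometry

universe u v u' v' w

namespace Pool.Agent.K4H39.FG

section Alg

variable {K A B : Type*} [Field K] [AddCommGroup A] [Module K A] {Γ : Type w} [Group Γ]

/-- The operators `act g` are a linear representation of the group `Γ` on the space `A`. -/
def IsAction (K : Type*) {A : Type*} [Field K] [AddCommGroup A] [Module K A] {Γ : Type w}
    [Group Γ] (act : Γ → A → A) : Prop :=
  (∀ g, IsLinearMap K (act g)) ∧ (∀ a, act 1 a = a) ∧ ∀ g h a, act (g * h) a = act g (act h a)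

/-- The subspace `U` is stable under the operators `act g`. -/
def IsStable (act : Γ → A → A) (U : Submodule K A) : Prop := ∀ g, ∀ a ∈ U, act g a ∈ U

/-- The representation is semisimple: each stable subspace has a stable complement. -/
def IsSemisimpleAction (K : Type*) {A : Type*} [Field K] [AddCommGroup A] [Module K A]
    {Γ : Type w} [Group Γ] (act : Γ → A → A) : Prop :=
  ∀ U : Submodule K A, IsStable act U → ∃ U' : Submodule K A, IsStable act U' ∧ IsCompl U U'

/-- The operators `act g` preserve the pairing `b`. -/
def PreservesPairing {K A : Type*} {Γ : Type w} (act : Γ → A → A) (b : A → A → K) : Prop :=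
  ∀ g x y, b (act g x) (act g y) = b x y

/-- The invariants are the image of the map `r`. -/
def InvariantsAreImage {A B : Type*} {Γ : Type w} (act : Γ → A → A) (r : B → A) : Prop :=
  ∀ a, (∀ g, act g a = a) ↔ ∃ b, r b = a

/-- The map `sp` of vector spaces is injective, additive, and semilinear for the homomorphism `σ` of
fields. -/
def IsSemilinearInjection {K K' A B : Type*} [Field K] [Field K'] [AddCommGroup A] [Module K A]
    [AddCommGroup B] [Module K' B] (σ : K →+* K') (sp : A → B) : Prop :=
  (∀ a b, sp (a + b) = sp a + sp b) ∧ (∀ (c : K) a, sp (c • a) = σ c • sp a) ∧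
    ∀ a, sp a = 0 → a = 0

/-- The map `sp` is compatible with the pairings `b` and `b'` and the homomorphism `σ` of fields. -/
def IsCompatiblePairing {K K' A B : Type*} [Field K] [Field K'] (σ : K →+* K') (b : A → A → K)
    (b' : B → B → K') (sp : A → B) : Prop :=
  ∀ x y, b' (sp x) (sp y) = σ (b x y)

end Alg

open Pool.Agent.H914 VarClass Obj WeilCohomology Pool.Agent.H447

section Ops

variable {k : Type u} [Field k] {𝒱 : VarClass k} {ops : CycleOps 𝒱}

/-- The Poincaré pairing `tr (a b)`. -/
noncomputable def pairing (W : WeilCohomology.{u, v} ops) (X : 𝒱.Obj) (a b : W.H X) : W.K := W.tr X (a * b)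

/-- The class of a cycle. -/
noncomputable def cls (W : WeilCohomology.{u, v} ops) (X : 𝒱.Obj) (z : X.Cycles) : W.H X := W.cl X z

/-- The action in cohomology of the correspondence given by a cycle on `X × Y`. -/
noncomputable def via (W : WeilCohomology.{u, v} ops) {X Y : 𝒱.Obj} (z : (X.prod Y).Cycles)
    (a : W.H X) : W.H Y := W.corr (W.cl (X.prod Y) z) a

/-- The direct image of the product of `a` with the class of the cycle `x`. -/
noncomputable def pushBy (W : WeilCohomology.{u, v} ops) {X Y : 𝒱.Obj} (f : X ⟶ Y) (x : X.Cycles)
    (a : W.H X) : W.H Y := W.push f (W.cl X x * a)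

/-- The inverse image. -/
noncomputable def pullBy (W : WeilCohomology.{u, v} ops) {X Y : 𝒱.Obj} (f : X ⟶ Y) (a : W.H Y) : W.H X :=
  W.map f a

/-- The conjecture D for the cycle `z` of codimension `j` on `X`: if all intersection numbers of `z`
with cycles of complementary codimension vanish then `z` is homologically equivalent to zero. -/
def HomEqNumFor (W : WeilCohomology.{u, v} ops) (X : 𝒱.Obj) (j : ℕ) (z : X.Cycles) : Prop :=
  (∀ w, X.IsCyc (X.dim - j) w → X.V.degCycle (ops.mul z w) = 0) → cls W X z = 0

/-- The ring of the algebraic correspondences of degree zero of `P` with itself, modulo homological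
equivalence, has no nonzero nilpotent ideals (it is semiprime): if `u` is such a correspondence and
`u ∘ v ∘ u = 0` for all `v` then `u = 0`. -/
def NoNilpotentIdeals (W : WeilCohomology.{u, v} ops) (P : 𝒱.Obj) : Prop :=
  ∀ u, (P.prod P).IsCyc P.dim u → (∀ v, (P.prod P).IsCyc P.dim v →
    ∀ a, via W u (via W v (via W u a)) = 0) → cls W _ u = 0

/-- Each variety has algebraic cycles with nonzero class in all codimensions, for instance the powers
of an ample divisor. -/
def HasClasses (W : WeilCohomology.{u, v} ops) : Prop :=
  ∀ (P : 𝒱.Obj) (c : ℕ), c ≤ P.dim → ∃ w, P.IsCyc c w ∧ cls W P w ≠ 0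

/-- The motive of `P`, with a Tate twist by `a`, is a direct summand of the motive of `Y`, by means of
a variety `E` with morphisms `f : E → Y` and `π : E → P` and cycles `x`, `y` on `E`:
`π_* (y · f^* f_* (x · π^* c)) = e c` with `e ≠ 0`. If `Y` is the blow-up of a projective space along
the smooth subvariety `P` then this holds for the exceptional divisor `E` and powers `x`, `y` of the
class of `O(1)`. -/
def IsSummandOf (W : WeilCohomology.{u, v} ops) (P Y : 𝒱.Obj) (a : ℕ) : Prop :=
  ∃ (E : 𝒱.Obj) (f : E ⟶ Y) (π : E ⟶ P) (m n : ℕ) (x y : E.Cycles) (e : W.K),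
    m + Y.dim = a + E.dim ∧ E.IsCyc m x ∧ E.IsCyc n y ∧ e ≠ 0 ∧
    ∀ c : W.H P, pushBy W π y (pullBy W f (pushBy W f x (pullBy W π c))) = e • c

/-- For each variety `P` and `c ≤ dim P` some Tate twist of the motive of `P` is a direct summand of
the motive of a member `Y` of the class `R`, such that cycles of codimension `c` on `P` give cycles
of codimension `dim Y / 2` on `Y`. -/
def Contains (W : WeilCohomology.{u, v} ops) (R : Set 𝒱.Obj) : Prop :=
  ∀ (P : 𝒱.Obj) (c : ℕ), c ≤ P.dim → ∃ Y ∈ R, ∃ a : ℕ, Y.dim = 2 * (c + a) ∧ IsSummandOf W P Y a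

end Ops

variable {k : Type u} [Field k] {𝒱 : VarClass k} {ops : CycleOps 𝒱}
  {k' : Type u'} [Field k'] {𝒱' : VarClass k'} {ops' : CycleOps 𝒱'}

/-- The geometric data given by spreading out a variety `X` over `k'` with a cycle `z`, over a smooth
variety `U` of dimension `s` over the smaller field `k`: `X` is the geometric generic fibre of a
smooth projective family `V → U`; `F` is a closed fibre; `P` is a smooth projective variety with an
alteration `φ` to a compactification of `V`; `t` is the cycle on `F × P` which induces
`a ↦ φ^* (i_* a)` for the inclusion `i` of `F`; `zF` is the specialisation of `z` to `F`; `res w` is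
the restriction of `φ_* w` to `X`. -/
structure Spread (𝒱 : VarClass k) (X : 𝒱'.Obj) where
  /-- the closed fibre -/
  F : 𝒱.Obj
  /-- the total space -/
  P : 𝒱.Obj
  /-- the correspondence from the fibre to the total space -/
  t : (F.prod P).Cycles
  /-- the specialisation of the cycle -/
  zF : F.Cycles
  /-- the restriction of cycles to the generic fibre -/
  res : P.Cycles → X.Cycles

/-- The dimensions and codimensions of the geometric data. -/
structure Spread.HasDims {X : 𝒱'.Obj} (M : Spread 𝒱 X) (j s : ℕ) : Prop where
  dim_F : M.F.dim = X.dim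
  dim_P : M.P.dim = X.dim + s
  t_mem : (M.F.prod M.P).IsCyc (M.F.dim + s) M.t
  zF_mem : M.F.IsCyc j M.zF
  res_mem : ∀ q w, M.P.IsCyc q w → X.IsCyc q (M.res w)

/-- The specialisation map `sp` in cohomology, semilinear for a homomorphism `σ` of the coefficient
fields, is injective, compatible with the Poincaré pairings, and maps the classes of the cycle `z` and
of the restrictions of cycles `w` on `P` to the classes of their specialisations to `F`; here
`r : H(P) → H(F)` is the map `b ↦ i^* (φ_* b)`. -/
structure Spread.IsSpecialization {X : 𝒱'.Obj} (M : Spread 𝒱 X) (W : WeilCohomology.{u, v} ops)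
    (W' : WeilCohomology.{u', v'} ops') (z : X.Cycles) (σ : W'.K →+* W.K)
    (sp : W'.H X → W.H M.F) (r : W.H M.P → W.H M.F) : Prop where
  semilinear : IsSemilinearInjection σ sp
  pair : IsCompatiblePairing σ (pairing W' X) (pairing W M.F) sp
  sp_z : sp (cls W' X z) = cls W M.F M.zF
  sp_res : ∀ w, sp (cls W' X (M.res w)) = r (cls W M.P w)

/-- The cohomological properties of a closed fibre `F` of the family and the total space `P`: the
map `r` is adjoint to the correspondence `t`; the fundamental group of the base acts on `H(F)` and
preserves the Poincaré pairing and the class of the specialised cycle; this action is semisimple, and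
its invariants are the image of `r` (theorems of Deligne). -/
structure Spread.IsMonodromy {X : 𝒱'.Obj} (M : Spread 𝒱 X) (W : WeilCohomology.{u, v} ops)
    (r : W.H M.P → W.H M.F) {Γ : Type w} [Group Γ] (act : Γ → W.H M.F → W.H M.F) : Prop where
  adj : ∀ a b, pairing W M.P (via W M.t a) b = pairing W M.F a (r b)
  action : IsAction W.K act
  pres : PreservesPairing act (pairing W M.F)
  invariant : ∀ g, act g (cls W M.F M.zF) = cls W M.F M.zF
  semisimple : IsSemisimpleAction W.K act
  image : InvariantsAreImage act r

/-- The data `M` are a model over `k` of `X` and the cycle `z` of codimension `j`, over a base of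
dimension `s`, for the Weil cohomology theories `W` and `W'`. -/
def Spread.IsModel {X : 𝒱'.Obj} (M : Spread 𝒱 X) (W : WeilCohomology.{u, v} ops)
    (W' : WeilCohomology.{u', v'} ops') (j : ℕ) (z : X.Cycles) (s : ℕ) : Prop :=
  M.HasDims j s ∧ ∃ (σ : W'.K →+* W.K) (sp : W'.H X → W.H M.F) (r : W.H M.P → W.H M.F)
    (Γ : Type w) (_ : Group Γ) (act : Γ → W.H M.F → W.H M.F),
    M.IsSpecialization W W' z σ sp r ∧ M.IsMonodromy W r act

/-- Each cycle on the variety `X` over `k'` has a model over `k`, over a base of some dimension
`s`. -/
def CyclesHaveModels (W : WeilCohomology.{u, v} ops) (W' : WeilCohomology.{u', v'} ops')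
    (X : 𝒱'.Obj) : Prop :=
  ∀ (j : ℕ) (z : X.Cycles), X.IsCyc j z →
    ∃ (s : ℕ) (M : Spread 𝒱 X), Spread.IsModel.{u, v, u', v', w} M W W' j z s

/-- The conjecture D for all varieties over `k` implies the conjecture D for the varieties over `k'`
all of whose cycles have models over `k`. -/
def Reduces (W : WeilCohomology.{u, v} ops) (W' : WeilCohomology.{u', v'} ops') : Prop :=
  (∀ P : 𝒱.Obj, HomEqNum W P) →
    ∀ X : 𝒱'.Obj, CyclesHaveModels.{u, v, u', v', w} W W' X → HomEqNum W' X

end Pool.Agent.K4H39.FG
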