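import Pool.Agent.K4H39.FG.Defs
import Pool.Agent.H914R2.WeilBasic

/-!
# Spreading out cycles over finitely generated fields
-/

open CategoryTheory AlgebraicGeometry

universe u v u' v' w

namespace Pool.Agent.K4H39.FG

section Alg

variable {K A B : Type*} [Field K] [Ring A] [Algebra K A] 
  {Γ : Type w} [Group Γ] {act : Γ → A → A} {tr : A →ₗ[K] K} {r : B → A}

/-- An invariant which is orthogonal to all invariants is orthogonal to everything. -/
lemma orth_of_monodromy (hact : IsAction K act)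
    (hpres : PreservesPairing act (fun x y => tr (x * y)))
    (hss : IsSemisimpleAction K act) (him : InvariantsAreImage act r)
    {a : A} (ha : ∀ g, act g a = a)
    (hr : ∀ b, tr (a * r b) = 0) (c : A) : tr (a * c) = 0 := by
  classical
  let φ : A →ₗ[K] K := tr ∘ₗ LinearMap.mulLeft K a
  have hφ : ∀ c, φ c = tr (a * c) := fun _ => rfl
  have hφi : ∀ g c, φ (act g c) = φ c := fun g c => by
    have h1 : tr (act g a * act g c) = tr (a * c) := hpres g a c
    rw [hφ, hφ, ← h1, ha g]
  have hadd : ∀ g x y, act g (x + y) = act g x + act g y := fun g => (hact.1 g).map_add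
  have hsmul : ∀ g (c : K) x, act g (c • x) = c • act g x := fun g => (hact.1 g).map_smul
  have hzero : ∀ g, act g 0 = 0 := fun g => (hact.1 g).map_zero
  -- the invariants
  let U : Submodule K A :=
    { carrier := {x | ∀ g, act g x = x}
      add_mem' := fun {x y} hx hy g => by rw [hadd, hx g, hy g]
      zero_mem' := fun g => hzero g
      smul_mem' := fun c x hx g => by rw [hsmul, hx g] }
  have hU : ∀ x, x ∈ U ↔ ∀ g, act g x = x := fun _ => Iff.rfl
  have hUφ : ∀ x ∈ U, φ x = 0 := by
    intro x hx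
    obtain ⟨b, rfl⟩ := (him x).1 ((hU x).1 hx)
    exact hr b
  obtain ⟨U', hU's, hU'⟩ := hss U fun g x hx => by
    rw [(hU x).1 hx g]; exact hx
  -- the kernel of `φ` on `U'`
  let N : Submodule K A := U' ⊓ LinearMap.ker φ
  have hN : ∀ g, ∀ x ∈ N, act g x ∈ N := fun g x hx =>
    ⟨hU's g x hx.1, LinearMap.mem_ker.2 ((hφi g x).trans (LinearMap.mem_ker.1 hx.2))⟩
  obtain ⟨L, hLs, hL⟩ := hss (U ⊔ N) fun g x hx => by
    obtain ⟨y, hy, y', hy', rfl⟩ := Submodule.mem_sup.1 hx
    rw [hadd]
    refine Submodule.add_mem_sup ?_ (hN g y' hy')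
    rw [(hU y).1 hy g]; exact hy
  have hL0 : L = ⊥ := by
    rw [eq_bot_iff]
    intro l hl
    have hlU : l ∈ U := by
      rw [hU]
      intro g
      obtain ⟨y, hy, y', hy', hyy⟩ := Submodule.mem_sup.1
        (show l ∈ U ⊔ U' by rw [hU'.sup_eq_top]; trivial)
      have h1 : act g l - l ∈ U ⊔ N := by
        have h2 : act g l - l = act g y' - y' := by
          rw [← hyy, hadd, (hU y).1 hy g]; abel
        rw [h2]
        exact Submodule.mem_sup_right ⟨Submodule.sub_mem _ (hU's g y' hy') hy',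
          LinearMap.mem_ker.2 (by rw [map_sub, hφi, sub_self])⟩
      have h3 : act g l - l ∈ (U ⊔ N) ⊓ L := ⟨h1, Submodule.sub_mem _ (hLs g l hl) hl⟩
      rw [hL.inf_eq_bot] at h3
      exact sub_eq_zero.1 ((Submodule.mem_bot _).1 h3)
    have h4 : l ∈ (U ⊔ N) ⊓ L := ⟨Submodule.mem_sup_left hlU, hl⟩
    rw [hL.inf_eq_bot] at h4
    exact h4
  have htop : U ⊔ N = ⊤ := by
    have := hL.sup_eq_top
    rwa [hL0, sup_bot_eq] at this
  obtain ⟨y, hy, y', hy', hyy⟩ := Submodule.mem_sup.1 (show c ∈ U ⊔ N by rw [htop]; trivial)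
  rw [← hφ, ← hyy, map_add, hUφ y hy, (LinearMap.mem_ker.1 hy'.2), add_zero]

end Alg

open Pool.Agent.H914 VarClass Obj WeilCohomology Pool.Agent.H447

variable {k : Type u} [Field k] {𝒱 : VarClass k} {ops : CycleOps 𝒱}
  {k' : Type u'} [Field k'] {𝒱' : VarClass k'} {ops' : CycleOps 𝒱'}
  {W : WeilCohomology.{u, v} ops} {W' : WeilCohomology.{u', v'} ops'}

lemma cl_eq_zero_of_dim_lt {X : 𝒱.Obj} {j : ℕ} {z : X.Cycles} (hz : X.IsCyc j z)
    (hj : X.dim < j) : W.cl X z = 0 := by
  have h1 := W.cl_mem hz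
  rw [W.gr_eq_bot X _ (by omega)] at h1
  exact (Submodule.mem_bot _).1 h1

/-- The trace of the product of two cycle classes of complementary codimensions. -/
lemma tr_mul_cl {X : 𝒱.Obj} {p q : ℕ} {z w : X.Cycles} (hz : X.IsCyc p z) (hw : X.IsCyc q w)
    (h : p + q = X.dim) :
    W.tr X (W.cl X z * W.cl X w) = (X.V.degCycle (ops.mul z w) : W.K) := by
  rw [← W.cl_mul]
  have := ops.mul_mem hz hw
  rw [h] at this
  exact W.tr_cl this

/-- **The conjecture D for the total space implies it for the generic fibre.** -/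
theorem homEqNumFor_of_model {X : 𝒱'.Obj} {j s : ℕ} {z : X.Cycles}
    {M : Spread 𝒱 X} (hM : Spread.IsModel.{u, v, u', v', w} M W W' j z s) (hz : X.IsCyc j z)
    (hD : HomEqNumIn W M.P (j + s)) : HomEqNumFor W' X j z := by
  intro hnum
  by_cases hj : X.dim < j
  · exact cl_eq_zero_of_dim_lt hz hj
  push Not at hj
  obtain ⟨hdims, σ, sp, r, Γ, _, act, hsp, hmon⟩ := hM
  -- the cycle on the total space
  set y : M.P.Cycles := ops.push (snd M.F M.P) (ops.mul M.t (ops.pull (fst M.F M.P) M.zF)) with hy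
  have hdF := hdims.dim_F
  have hdP := hdims.dim_P
  have hy1 : W.cl M.P y = via W M.t (cls W M.F M.zF) := by
    rw [via, cls, hy, W.cl_push, W.cl_mul, W.cl_pull, corr_apply]
  have hymem : M.P.IsCyc (j + s) y := by
    refine ops.push_mem _ (ops.mul_mem hdims.t_mem (ops.pull_mem _ hdims.zF_mem)) ?_
    rw [dim_prod]
    omega
  have hy0 : W.cl M.P y = 0 := by
    refine hD y hymem fun w hw => ?_
    have hw' : M.P.IsCyc (X.dim - j) w := by
      rw [show X.dim - j = M.P.dim - (j + s) by omega]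
      exact hw
    have h1 := tr_mul_cl (W := W) hymem hw (by omega)
    have h2 : W.tr M.P (W.cl M.P y * W.cl M.P w) =
        pairing W M.P (via W M.t (cls W M.F M.zF)) (cls W M.P w) := by
      rw [hy1]; rfl
    have h3 : pairing W' X (cls W' X z) (cls W' X (M.res w)) = 0 := by
      have := tr_mul_cl (W := W') hz (hdims.res_mem _ _ hw') (by omega)
      rw [hnum _ (hdims.res_mem _ _ hw'), Rat.cast_zero] at this
      exact this
    rw [h2, hmon.adj, ← hsp.sp_z, ← hsp.sp_res, hsp.pair, h3, map_zero] at h1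
    exact_mod_cast h1.symm
  have horth := orth_of_monodromy (tr := W.tr M.F) hmon.action hmon.pres hmon.semisimple
    hmon.image hmon.invariant (fun b => by
      have h1 := hmon.adj (cls W M.F M.zF) b
      rw [← hy1, hy0] at h1
      have h2 : pairing W M.P 0 b = 0 := by rw [pairing, zero_mul, map_zero]
      rw [h2] at h1
      exact h1.symm)
  apply hsp.semilinear.2.2
  rw [hsp.sp_z]
  exact W.nondeg _ horth

/-- The conjecture D passes to summands. -/
theorem homEqNumIn_of_summand {P Y : 𝒱.Obj} {a c : ℕ} (h : IsSummandOf W P Y a)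
    (hY : Y.dim = 2 * (c + a)) (hD : HomEqNumIn W Y (Y.dim / 2)) (hc : c ≤ P.dim) :
    HomEqNumIn W P c := by
  obtain ⟨E, f, π, m, n, x, y, e, hdim, hx, hy, he, hid⟩ := h
  simp only [pushBy, pullBy] at hid
  intro z hz hnum
  set u : Y.Cycles := ops.push f (ops.mul x (ops.pull π z)) with hu
  have humem : Y.IsCyc (Y.dim / 2) u := by
    refine ops.push_mem _ (ops.mul_mem hx (ops.pull_mem _ hz)) ?_
    omega
  have hu1 : W.cl Y u = W.push f (W.cl E x * W.map π (W.cl P z)) := by
    rw [hu, W.cl_push, W.cl_mul, W.cl_pull]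
  have hu0 : W.cl Y u = 0 := by
    refine hD u humem fun w hw => ?_
    have h1 := tr_mul_cl (W := W) humem hw (by omega)
    have hwm : P.IsCyc (P.dim - c) (ops.push π (ops.mul x (ops.pull f w))) := by
      refine ops.push_mem _ (ops.mul_mem hx (ops.pull_mem _ hw)) ?_
      omega
    have h2 := tr_mul_cl (W := W) hz hwm (by omega)
    rw [hnum _ hwm, Rat.cast_zero, W.cl_push, W.cl_mul, W.cl_pull,
      W.even_comm (W.cl_mem hz), W.tr_push] at h2
    rw [hu1, W.tr_push] at h1
    have h3 : W.cl E x * W.map π (W.cl P z) * W.map f (W.cl Y w) =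
        W.cl E x * W.map f (W.cl Y w) * W.map π (W.cl P z) := by
      rw [mul_assoc, W.even_comm (W.map_mem π (W.cl_mem hz)), mul_assoc]
    rw [h3, h2] at h1
    exact_mod_cast h1.symm
  have h4 := hid (W.cl P z)
  rw [← hu1, hu0, map_zero, mul_zero, map_zero] at h4
  exact (smul_eq_zero.1 h4.symm).resolve_left he

theorem homEqNum_iff_forall {X : 𝒱.Obj} : HomEqNum W X ↔ ∀ j ≤ X.dim, HomEqNumIn W X j := by
  constructor
  · intro h j hj z hz hw
    exact h j hj z hz hw
  · intro h j hj z hz hw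
    exact h j hj z hz hw

/-- **Reduction to the middle codimension on the members of the class `R`.** -/
theorem homEqNum_iff_middle {R : Set 𝒱.Obj} (hR : Contains W R) :
    (∀ Y ∈ R, HomEqNumIn W Y (Y.dim / 2)) ↔ ∀ P : 𝒱.Obj, HomEqNum W P := by
  constructor
  · intro h P
    rw [homEqNum_iff_forall]
    intro c hc
    obtain ⟨Y, hY, a, hYa, hs⟩ := hR P c hc
    exact homEqNumIn_of_summand hs hYa (h Y hY) hc
  · intro h Y _
    exact homEqNum_iff_forall.1 (h Y) _ (Nat.div_le_self _ _)

/-- **Reduction from `k'` to `k`.** -/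
theorem reduces : Reduces.{u, v, u', v', w} W W' := by
  intro h X hX j hj z hz hnum
  obtain ⟨s, M, hM⟩ := hX j z hz
  refine homEqNumFor_of_model hM hz ?_ hnum
  exact homEqNum_iff_forall.1 (h M.P) _ (by rw [hM.1.dim_P]; omega)

end Pool.Agent.K4H39.FG
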