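import Pool.Agent.K4H39.FG.Main
import Pool.Agent.Y133.Half.Par

/-!
# The conjecture D and nilpotent ideals of correspondences
-/

open CategoryTheory AlgebraicGeometry

universe u v

namespace Pool.Agent.K4H39.FG

open Pool.Agent.H914 VarClass Obj WeilCohomology Pool.Agent.H447 Pool.Agent.Y133.Half

variable {k : Type u} [Field k] {𝒱 : VarClass k} {ops : CycleOps 𝒱}
  {W : WeilCohomology.{u, v} ops} {P : 𝒱.Obj}

lemma swap_swap' (X Y : 𝒱.Obj) : swap X Y ≫ swap Y X = 𝟙 _ := by
  apply SmVar.hom_ext
  apply Limits.pullback.hom_ext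
  · have h1 : (swap X Y ≫ swap Y X) ≫ fst X Y = 𝟙 _ ≫ fst X Y := by
      rw [Category.assoc, swap_fst, swap_snd, Category.id_comp]
    exact congrArg SmVar.Hom.hom h1
  · have h1 : (swap X Y ≫ swap Y X) ≫ snd X Y = 𝟙 _ ≫ snd X Y := by
      rw [Category.assoc, swap_snd, swap_fst, Category.id_comp]
    exact congrArg SmVar.Hom.hom h1

/-- If homological and numerical equivalence coincide for the correspondences of degree zero of `P`
then they have no nilpotent ideals. -/
theorem semiprime_of_homEqNumIn (h : HomEqNumIn W (P.prod P) P.dim) {u : (P.prod P).Cycles}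
    (hu : (P.prod P).IsCyc P.dim u)
    (huv : ∀ v, (P.prod P).IsCyc P.dim v →
      W.corr (W.cl _ u) ∘ₗ W.corr (W.cl _ v) ∘ₗ W.corr (W.cl _ u) = 0) : W.cl _ u = 0 := by
  refine h u hu fun w hw => ?_
  rw [dim_prod, Nat.add_sub_cancel] at hw
  have hw' : (P.prod P).IsCyc P.dim (ops.pull (swap P P) w) := ops.pull_mem _ hw
  have h1 := trace_corr_corr (W := W) (W.cl (P.prod P) u) (W.cl _ (ops.pull (swap P P) w))
  rw [W.cl_pull, ← W.map_comp, swap_swap', W.map_id, ← W.cl_mul,
    W.tr_cl (by rw [dim_prod]; exact ops.mul_mem hu hw)] at h1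
  have hdeg : IsHom (W.gr P) 0 (W.corr (W.cl _ u)) := by
    have := W.corr_isHom (W.cl_mem hu)
    simpa using this
  have hdegw : IsHom (W.gr P) 0 (W.corr (W.map (swap P P) (W.cl _ w))) := by
    have := W.corr_isHom (W.cl_mem hw')
    rw [W.cl_pull] at this
    simpa using this
  have huw := huv _ hw'
  rw [W.cl_pull] at huw
  set T : Module.End W.K (W.H P) := W.corr (W.cl _ u) * W.corr (W.map (swap P P) (W.cl _ w))
    with hT
  have hTT : T * T = 0 := by
    have : T * T = (W.corr (W.cl _ u) ∘ₗ W.corr (W.map (swap P P) (W.cl _ w)) ∘ₗ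
        W.corr (W.cl _ u)) * W.corr (W.map (swap P P) (W.cl _ w)) := by
      rw [hT, mul_assoc]; rfl
    rw [this, huw, zero_mul]
  have hTh : IsHom (W.gr P) 0 T := by
    have := hdeg.mul hdegw
    simpa using this
  have hcomm : par (W.isInternal P) * T = T * par (W.isInternal P) := by
    have := IsHom.par_comm (d := 0) (W.isInternal P) (y := T) (by simpa using hTh)
    simpa using this
  have hnil : IsNilpotent (par (W.isInternal P) * T) := by
    refine ⟨2, ?_⟩
    rw [pow_two, mul_assoc, ← mul_assoc T, ← hcomm, mul_assoc, hTT, mul_zero, mul_zero]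
  have h2 : LinearMap.trace W.K (W.H P) (par (W.isInternal P) * T) = 0 :=
    (LinearMap.isNilpotent_trace_of_isNilpotent hnil).eq_zero
  have h3 : par (W.isInternal P) ∘ₗ W.corr (W.cl (P.prod P) u) ∘ₗ
      W.corr (W.map (swap P P) (W.cl (P.prod P) w)) = par (W.isInternal P) * T := rfl
  rw [h3, h2] at h1
  exact_mod_cast h1.symm

/-- If the correspondences of degree zero of `P` have no nilpotent ideals then homological and
numerical equivalence coincide on `P`. -/
theorem homEqNumIn_of_semiprime (hP : ∀ c ≤ P.dim, ∃ w, P.IsCyc c w ∧ W.cl P w ≠ 0)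
    (h : ∀ u : (P.prod P).Cycles, (P.prod P).IsCyc P.dim u →
      (∀ v, (P.prod P).IsCyc P.dim v →
        W.corr (W.cl _ u) ∘ₗ W.corr (W.cl _ v) ∘ₗ W.corr (W.cl _ u) = 0) → W.cl _ u = 0)
    {c : ℕ} (hc : c ≤ P.dim) : HomEqNumIn W P c := by
  intro z hz hnum
  obtain ⟨w, hw, hw0⟩ := hP (P.dim - c) (Nat.sub_le _ _)
  set u : (P.prod P).Cycles := ops.mul (ops.pull (fst P P) w) (ops.pull (snd P P) z) with hu
  have hucyc : (P.prod P).IsCyc P.dim u := by
    have := ops.mul_mem (ops.pull_mem (fst P P) hw) (ops.pull_mem (snd P P) hz)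
    rwa [show P.dim - c + c = P.dim by omega] at this
  have hucl : W.cl _ u = W.map (fst P P) (W.cl P w) * W.map (snd P P) (W.cl P z) := by
    rw [hu, W.cl_mul, W.cl_pull, W.cl_pull]
  have hcorr : ∀ x, W.corr (W.cl _ u) x = W.tr P (W.cl P w * x) • W.cl P z := by
    intro x
    rw [hucl, corr_apply, mul_assoc, W.even_comm (W.map_mem (snd P P) (W.cl_mem hz)), ← mul_assoc,
      ← map_mul, push_snd]
  have hcl := h u hucyc fun v hv => by
    apply LinearMap.ext
    intro x
    rw [LinearMap.comp_apply, LinearMap.comp_apply, hcorr x, map_smul, map_smul, hcorr,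
      LinearMap.zero_apply]
    have hcyc : P.IsCyc (P.dim - c) (ops.push (fst P P) (ops.mul v (ops.pull (snd P P) w))) := by
      refine ops.push_mem _ (ops.mul_mem hv (ops.pull_mem _ hw)) ?_
      rw [dim_prod]
      omega
    have h1 := tr_mul_cl (W := W) hz hcyc (by omega)
    rw [hnum _ hcyc, Rat.cast_zero, W.cl_push, W.cl_mul, W.cl_pull,
      W.even_comm (W.cl_mem hz), W.tr_push] at h1
    have h2 : W.tr P (W.cl P w * W.corr (W.cl _ v) (W.cl P z)) = 0 := by
      rw [corr_apply, W.even_comm (W.cl_mem hw), W.tr_push, mul_assoc,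
        W.even_comm (W.map_mem (fst P P) (W.cl_mem hz)), ← mul_assoc]
      exact h1
    rw [h2, zero_smul, smul_zero]
  obtain ⟨b, hb⟩ : ∃ b, W.tr P (W.cl P w * b) ≠ 0 := by
    by_contra hcon
    push Not at hcon
    exact hw0 (W.nondeg _ hcon)
  have h3 := hcorr b
  rw [hcl, corr_zero, LinearMap.zero_apply] at h3
  exact (smul_eq_zero.1 h3.symm).resolve_left hb

/-- Homological and numerical equivalence coincide on all varieties if and only if the rings of
correspondences have no nilpotent ideals. -/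
theorem homEqNum_iff_semiprime (hcl : HasClasses W) :
    (∀ P : 𝒱.Obj, HomEqNum W P) ↔ ∀ P : 𝒱.Obj, NoNilpotentIdeals W P := by
  constructor
  · intro h P u hu huv
    exact semiprime_of_homEqNumIn
      (homEqNum_iff_forall.1 (h (P.prod P)) _ (by rw [dim_prod]; omega)) hu
      fun v hv => LinearMap.ext fun a => huv v hv a
  · intro h P
    rw [homEqNum_iff_forall]
    intro c hc
    exact homEqNumIn_of_semiprime (hcl P)
      (fun u hu huv => h P u hu fun v hv a => by
        have := congrArg (fun f : W.H P →ₗ[W.K] W.H P => f a) (huv v hv)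
        exact this) hc

end Pool.Agent.K4H39.FG
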